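import Pool.Agent.K7.H2.UT.Stm

/-! Job IDX of project UT: the subgroup of r-th powers -/

set_option autoImplicit false

namespace Pool.Agent.K7.H30.UTIDX

open Pool.Agent.K7.H2.UT

theorem mem_of_pow {G : Type} [CommGroup G] [IsCyclic G] [Finite G] {r : ℕ} (hr : r ∣ Nat.card G)
    {x : G} (hx : x ^ (Nat.card G / r) = 1) : x ∈ (powMonoidHom r : G →* G).range := by
  obtain ⟨g, hg⟩ := IsCyclic.exists_generator (α := G)
  have hN : 0 < Nat.card G := Nat.card_pos
  have hord : orderOf g = Nat.card G := orderOf_eq_card_of_forall_mem_zpowers hg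
  obtain ⟨k, rfl⟩ := (mem_powers_iff_mem_zpowers.2 (hg x))
  simp only at hx ⊢
  rw [← pow_mul, ← orderOf_dvd_iff_pow_eq_one, hord] at hx
  obtain ⟨m, hm⟩ := hr
  have hr0 : 0 < r := by
    rcases Nat.eq_zero_or_pos r with h | h
    · rw [h, zero_mul] at hm; omega
    · exact h
  have hm0 : 0 < m := by
    rcases Nat.eq_zero_or_pos m with h | h
    · rw [h, mul_zero] at hm; omega
    · exact h
  rw [hm, Nat.mul_div_cancel_left _ hr0] at hx
  have hk : r ∣ k := Nat.dvd_of_mul_dvd_mul_right hm0 hx
  obtain ⟨j, rfl⟩ := hk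
  refine ⟨g ^ j, ?_⟩
  rw [powMonoidHom_apply, ← pow_mul, mul_comm]

theorem t : StIDX := by
  intro F _ _ r hr hd hev
  classical
  have hcard : Nat.card Fˣ = Fintype.card F - 1 := by
    rw [Nat.card_eq_fintype_card, Fintype.card_units]
  refine ⟨?_, ?_, ?_⟩
  · rw [IsCyclic.index_powMonoidHom_range, hcard]
    exact Nat.gcd_eq_right hd
  · refine mem_of_pow (by rw [hcard]; exact hd) ?_
    rw [hcard]
    rcases hev with h | h
    · have h2 : ringChar F = 2 := by
        by_contra hne
        have := FiniteField.odd_card_of_char_ne_two hne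
        rw [Nat.even_iff] at h
        omega
      have : (-1 : Fˣ) = 1 := by
        ext
        push_cast
        haveI : CharP F 2 := by rw [← h2]; exact ringChar.charP F
        exact CharTwo.neg_eq 1
      rw [this, one_pow]
    · exact h.neg_one_pow
  · rintro σ x ⟨y, rfl⟩
    exact ⟨Units.map (σ : F →* F) y, by simp [powMonoidHom_apply]⟩

theorem stIDX : Pool.Agent.K7.H2.UT.StIDX := t

end Pool.Agent.K7.H30.UTIDX
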