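import Pool.Agent.K7.H2.UT.Stm

/-! Job OBS of project UT: the obstruction -/

set_option autoImplicit false

open OnePoint

namespace Pool.Agent.K7.H30.UTOBS

open Pool.Agent.K7.H2.UT

/-- membership of a field element in the subgroup `H` of the units -/
def In {F : Type} [Field F] (H : Subgroup Fˣ) (x : F) : Prop := ∃ u ∈ H, ((u : Fˣ) : F) = x

theorem In.mul {F : Type} [Field F] {H : Subgroup Fˣ} {x y : F} (hx : In H x) (hy : In H y) :
    In H (x * y) := by
  obtain ⟨u, hu, rfl⟩ := hx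
  obtain ⟨v, hv, rfl⟩ := hy
  exact ⟨u * v, H.mul_mem hu hv, by simp⟩

theorem In.neg {F : Type} [Field F] {H : Subgroup Fˣ} (h1 : (-1 : Fˣ) ∈ H) {x : F}
    (hx : In H x) : In H (-x) := by
  obtain ⟨u, hu, rfl⟩ := hx
  exact ⟨(-1) * u, H.mul_mem h1 hu, by simp⟩

theorem In.one {F : Type} [Field F] {H : Subgroup Fˣ} : In H (1 : F) := ⟨1, H.one_mem, by simp⟩

theorem In.inv {F : Type} [Field F] {H : Subgroup Fˣ} {x : F} (hx : In H x) : In H x⁻¹ := by
  obtain ⟨u, hu, rfl⟩ := hx
  exact ⟨u⁻¹, H.inv_mem hu, by simp⟩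

theorem In.ne {F : Type} [Field F] {H : Subgroup Fˣ} {x : F} (hx : In H x) : x ≠ 0 := by
  obtain ⟨u, hu, rfl⟩ := hx
  exact u.ne_zero

open Classical in
theorem lab {F : Type} [Field F] [DecidableEq F] {H : Subgroup Fˣ} {u : F} {i : Fin 4}
    (h : (if u = 0 then (1 : Fin 4) else if In H u then 2 else 3) = i) :
    (i = 1 ∧ u = 0) ∨ (i = 2 ∧ u ≠ 0 ∧ In H u) ∨ (i = 3 ∧ u ≠ 0 ∧ ¬ In H u) := by
  by_cases hu : u = 0
  · left; rw [if_pos hu] at h; exact ⟨h.symm, hu⟩
  · by_cases hv : In H u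
    · right; left; rw [if_neg hu, if_pos hv] at h; exact ⟨h.symm, hu, hv⟩
    · right; right; rw [if_neg hu, if_neg hv] at h; exact ⟨h.symm, hu, hv⟩

open Classical in
theorem t : StOBS := by
  intro hINV F _ _ H hHtop hneg hσ hsum G hG hUT
  obtain ⟨x, hx, y, hy, z, hz, hxyz⟩ := hsum
  set l : F := (x : F) * (z : F)⁻¹ with hl
  have hlIn : In H l := In.mul ⟨x, hx, rfl⟩ (In.inv ⟨z, hz, rfl⟩)
  have hl1 : In H (1 - l) := by
    have : (1 : F) - l = (y : F) * (z : F)⁻¹ := by
      have hz0 : (z : F) ≠ 0 := z.ne_zero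
      rw [hl]
      field_simp
      linear_combination -hxyz
    rw [this]
    exact In.mul ⟨y, hy, rfl⟩ (In.inv ⟨z, hz, rfl⟩)
  have hl0 : l ≠ 0 := hlIn.ne
  have hlne1 : l ≠ 1 := by
    intro h
    exact hl1.ne (by rw [h, sub_self])
  -- the four points
  set S : Finset (OnePoint F) := {∞, ((0 : F) : OnePoint F), ((1 : F) : OnePoint F),
    ((l : F) : OnePoint F)} with hS
  have hScard : S.card = 4 := by
    rw [hS, Finset.card_insert_of_notMem, Finset.card_insert_of_notMem,
      Finset.card_insert_of_notMem, Finset.card_singleton]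
    · simp [hlne1.symm]
    · simp [hl0.symm]
    · simp
  have hD : ∀ s ∈ S, ∀ s' ∈ S, s ≠ s' → In H (D s s') := by
    intro s hs s' hs' hne
    simp only [hS, Finset.mem_insert, Finset.mem_singleton] at hs hs'
    have e1 : In H (1 : F) := In.one
    have e2 : In H (-1 : F) := In.neg hneg e1
    have e3 : In H (-l) := In.neg hneg hlIn
    have e4 : In H (l - 1) := by
      have := In.neg hneg hl1
      rwa [neg_sub] at this
    rcases hs with rfl | rfl | rfl | rfl <;> rcases hs' with rfl | rfl | rfl | rfl <;>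
      first
      | exact absurd rfl hne
      | (simp only [D, zero_sub, sub_zero]; assumption)
  -- the partition
  set P : OnePoint F → Fin 4 := fun a =>
    match a with
    | ∞ => 0
    | OnePoint.some a => if a = 0 then 1 else if In H a then 2 else 3 with hP
  obtain ⟨w, hw⟩ : ∃ w : Fˣ, w ∉ H := by
    by_contra hcon
    push Not at hcon
    exact hHtop (by ext u; simp [hcon u])
  have hwIn : ¬ In H (w : F) := by
    rintro ⟨u, hu, huw⟩
    exact hw (by rwa [← Units.ext huw])
  have hPsurj : Function.Surjective P := by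
    intro i
    fin_cases i
    · exact ⟨∞, rfl⟩
    · exact ⟨((0 : F) : OnePoint F), by simp [hP]⟩
    · exact ⟨((1 : F) : OnePoint F), by simp [hP, In.one]⟩
    · exact ⟨((w : F) : OnePoint F), by simp [hP, hwIn]⟩
  obtain ⟨g, hgG, hinj⟩ := hUT S hScard P hPsurj
  have himg : S.image (fun s => P (g s)) = Finset.univ := by
    apply Finset.eq_univ_of_card
    rw [Finset.card_image_of_injOn hinj, hScard, Fintype.card_fin]
  have hex : ∀ i : Fin 4, ∃ s ∈ S, P (g s) = i := by
    intro i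
    have : i ∈ S.image (fun s => P (g s)) := by rw [himg]; exact Finset.mem_univ _
    simpa using this
  obtain ⟨s0, hs0, h0⟩ := hex 0
  obtain ⟨s1, hs1, h1⟩ := hex 1
  obtain ⟨s2, hs2, h2⟩ := hex 2
  obtain ⟨s3, hs3, h3⟩ := hex 3
  have g0 : g s0 = ∞ := by
    rcases hgs : g s0 with _ | a
    · rfl
    · exfalso
      rw [hgs] at h0
      change (if a = 0 then (1 : Fin 4) else if In H a then 2 else 3) = 0 at h0
      rcases lab h0 with h | h | h <;> exact absurd h.1 (by decide)
  have g1 : g s1 = ((0 : F) : OnePoint F) := by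
    rcases hgs : g s1 with _ | a
    · exfalso
      rw [hgs] at h1
      change (0 : Fin 4) = 1 at h1
      exact absurd h1 (by decide)
    · rw [hgs] at h1
      change (if a = 0 then (1 : Fin 4) else if In H a then 2 else 3) = 1 at h1
      rcases lab h1 with h | h | h
      · rw [h.2]; rfl
      · exact absurd h.1 (by decide)
      · exact absurd h.1 (by decide)
  obtain ⟨a, g2, ha⟩ : ∃ a : F, g s2 = (a : OnePoint F) ∧ In H a := by
    rcases hgs : g s2 with _ | a
    · exfalso
      rw [hgs] at h2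
      change (0 : Fin 4) = 2 at h2
      exact absurd h2 (by decide)
    · rw [hgs] at h2
      change (if a = 0 then (1 : Fin 4) else if In H a then 2 else 3) = 2 at h2
      rcases lab h2 with h | h | h
      · exact absurd h.1 (by decide)
      · exact ⟨a, rfl, h.2.2⟩
      · exact absurd h.1 (by decide)
  obtain ⟨b, g3, hb0, hb⟩ : ∃ b : F, g s3 = (b : OnePoint F) ∧ b ≠ 0 ∧ ¬ In H b := by
    rcases hgs : g s3 with _ | b
    · exfalso
      rw [hgs] at h3
      change (0 : Fin 4) = 3 at h3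
      exact absurd h3 (by decide)
    · rw [hgs] at h3
      change (if b = 0 then (1 : Fin 4) else if In H b then 2 else 3) = 3 at h3
      rcases lab h3 with h | h | h
      · exact absurd h.1 (by decide)
      · exact absurd h.1 (by decide)
      · exact ⟨b, rfl, h.2.1, h.2.2⟩
  have hne : ∀ {s s' : OnePoint F} {i j : Fin 4}, P (g s) = i → P (g s') = j → i ≠ j → s ≠ s' := by
    rintro s s' i j hi hj hij rfl
    exact hij (hi.symm.trans hj)
  obtain ⟨σ, δ, c, hδ, hc, hDg⟩ := hINV F g (hG hgG)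
  have hσIn : ∀ u : F, In H u → In H (σ u) := by
    rintro u ⟨v, hv, rfl⟩
    exact ⟨_, hσ σ v hv, by simp⟩
  have k02 := hσIn _ (hD s0 hs0 s2 hs2 (hne h0 h2 (by decide)))
  have k31 := hσIn _ (hD s3 hs3 s1 hs1 (hne h3 h1 (by decide)))
  have k03 := hσIn _ (hD s0 hs0 s3 hs3 (hne h0 h3 (by decide)))
  have k21 := hσIn _ (hD s2 hs2 s1 hs1 (hne h2 h1 (by decide)))
  have m02 := hDg s0 s2
  have m31 := hDg s3 s1
  have m03 := hDg s0 s3
  have m21 := hDg s2 s1
  rw [g0, g2] at m02
  rw [g3, g1] at m31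
  rw [g0, g3] at m03
  rw [g2, g1] at m21
  have d1 : ∀ u : F, D (∞ : OnePoint F) (u : OnePoint F) = 1 := fun u => rfl
  have d2 : ∀ u v : F, D (u : OnePoint F) (v : OnePoint F) = u - v := fun u v => rfl
  rw [d1] at m02 m03
  rw [d2, sub_zero] at m31 m21
  -- b = K * (σ D02 * σ D31), a = K * (σ D03 * σ D21)
  have hKb : b * (σ (D s0 s3) * σ (D s2 s1)) = a * (σ (D s0 s2) * σ (D s3 s1)) := by
    have e1 : b = (δ * c s0 * c s2 * σ (D s0 s2)) * (δ * c s3 * c s1 * σ (D s3 s1)) := by
      rw [← m02, ← m31, one_mul]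
    have e2 : a = (δ * c s0 * c s3 * σ (D s0 s3)) * (δ * c s2 * c s1 * σ (D s2 s1)) := by
      rw [← m03, ← m21, one_mul]
    rw [e1, e2]
    ring
  apply hb
  have hK := In.mul k03 k21
  have : b = a * (σ (D s0 s2) * σ (D s3 s1)) * (σ (D s0 s3) * σ (D s2 s1))⁻¹ := by
    rw [← hKb, mul_assoc, mul_inv_cancel₀ hK.ne, mul_one]
  rw [this]
  exact In.mul (In.mul ha (In.mul k02 k31)) (In.inv hK)

end Pool.Agent.K7.H30.UTOBS
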