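import Pool.Agent.K7.H2.UT.Stm

/-! Job SUM of project UT: a subgroup of small index of the multiplicative group contains
`x, y, x + y` -/

set_option autoImplicit false

namespace Pool.Agent.K7.H30.UTSUM2

open Pool.Agent.K7.H2.UT Finset ComplexConjugate

section

variable {F : Type} [Field F] [Fintype F] (H : Subgroup Fˣ)

open Classical in
/-- the Fourier transform of the indicator of the subgroup -/
noncomputable def f (ψ : AddChar F ℂ) (t : F) : ℂ := ∑ u : H, ψ (t * ((u : Fˣ) : F))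

open Classical in
theorem parseval {ψ : AddChar F ℂ} (hψ : ψ.IsPrimitive) :
    ∑ t : F, f H ψ t * conj (f H ψ t) = (Fintype.card F : ℂ) * Fintype.card H := by
  have h1 : ∀ t : F, f H ψ t * conj (f H ψ t) =
      ∑ u : H, ∑ v : H, ψ (t * (((u : Fˣ) : F) - ((v : Fˣ) : F))) := by
    intro t
    unfold f
    rw [map_sum, Finset.sum_mul_sum]
    refine Finset.sum_congr rfl fun u _ => Finset.sum_congr rfl fun v _ => ?_
    rw [← AddChar.map_neg_eq_conj, ← AddChar.map_add_eq_mul]
    congr 1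
    ring
  simp only [h1]
  rw [Finset.sum_comm]
  have h2 : ∀ u : H, ∑ t : F, ∑ v : H, ψ (t * (((u : Fˣ) : F) - ((v : Fˣ) : F))) =
      (Fintype.card F : ℂ) := by
    intro u
    rw [Finset.sum_comm]
    have h3 : ∀ v : H, ∑ t : F, ψ (t * (((u : Fˣ) : F) - ((v : Fˣ) : F))) =
        if v = u then (Fintype.card F : ℂ) else 0 := by
      intro v
      rw [AddChar.sum_mulShift _ hψ]
      by_cases h : v = u
      · simp [h]
      · rw [if_neg, if_neg h]
        · simp
        · rw [sub_eq_zero]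
          intro h'
          exact h (Subtype.ext (Units.ext h'.symm))
    simp only [h3]
    simp
  simp only [h2]
  simp [mul_comm]

open Classical in
theorem triple {ψ : AddChar F ℂ} (hψ : ψ.IsPrimitive)
    (hno : ∀ u v w : H, ((u : Fˣ) : F) + ((v : Fˣ) : F) ≠ ((w : Fˣ) : F)) :
    ∑ t : F, f H ψ t * (f H ψ t * conj (f H ψ t)) = 0 := by
  have h1 : ∀ t : F, f H ψ t * (f H ψ t * conj (f H ψ t)) =
      ∑ u : H, ∑ v : H, ∑ w : H,
        ψ (t * (((u : Fˣ) : F) + (((v : Fˣ) : F) - ((w : Fˣ) : F)))) := by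
    intro t
    unfold f
    rw [map_sum, Finset.sum_mul_sum, Finset.sum_mul]
    refine Finset.sum_congr rfl fun u _ => ?_
    rw [Finset.mul_sum]
    refine Finset.sum_congr rfl fun v _ => ?_
    rw [Finset.mul_sum]
    refine Finset.sum_congr rfl fun w _ => ?_
    rw [← AddChar.map_neg_eq_conj, ← AddChar.map_add_eq_mul, ← AddChar.map_add_eq_mul]
    congr 1
    ring
  simp only [h1]
  rw [Finset.sum_comm]
  refine Finset.sum_eq_zero fun u _ => ?_
  rw [Finset.sum_comm]
  refine Finset.sum_eq_zero fun v _ => ?_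
  rw [Finset.sum_comm]
  refine Finset.sum_eq_zero fun w _ => ?_
  rw [AddChar.sum_mulShift _ hψ, if_neg]
  · simp
  · intro h
    apply hno u v w
    linear_combination h

open Classical in
theorem f_zero (ψ : AddChar F ℂ) : f H ψ 0 = (Fintype.card H : ℂ) := by
  unfold f
  simp

open Classical in
theorem f_orbit (ψ : AddChar F ℂ) (t : F) (u : H) : f H ψ (t * ((u : Fˣ) : F)) = f H ψ t := by
  unfold f
  refine Fintype.sum_equiv (Equiv.mulLeft u) _ _ fun v => ?_
  simp [mul_assoc]

open Classical in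
theorem parseval_real {ψ : AddChar F ℂ} (hψ : ψ.IsPrimitive) :
    ∑ t : F, ‖f H ψ t‖ ^ 2 = (Fintype.card F : ℝ) * Fintype.card H := by
  have h := parseval H hψ
  simp only [Complex.mul_conj, Complex.normSq_eq_norm_sq] at h
  exact_mod_cast h

open Classical in
theorem f_bound {ψ : AddChar F ℂ} (hψ : ψ.IsPrimitive) {t : F} (ht : t ≠ 0) :
    ‖f H ψ t‖ ^ 2 ≤ (Fintype.card F : ℝ) := by
  have hinj : Function.Injective fun u : H => t * ((u : Fˣ) : F) := by
    intro u v huv
    exact Subtype.ext (Units.ext (mul_left_cancel₀ ht huv))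
  have h1 : ∑ u : H, ‖f H ψ (t * ((u : Fˣ) : F))‖ ^ 2 ≤ ∑ s : F, ‖f H ψ s‖ ^ 2 := by
    rw [← Finset.sum_image (s := (Finset.univ : Finset H)) (g := fun u : H => t * ((u : Fˣ) : F))
      (f := fun s => ‖f H ψ s‖ ^ 2) (fun a _ b _ h => hinj h)]
    exact Finset.sum_le_sum_of_subset_of_nonneg (Finset.subset_univ _) fun _ _ _ => by positivity
  simp only [f_orbit, Finset.sum_const, Finset.card_univ, nsmul_eq_mul] at h1
  rw [parseval_real H hψ, mul_comm (Fintype.card F : ℝ)] at h1
  have hpos : (0 : ℝ) < Fintype.card H := by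
    exact_mod_cast Fintype.card_pos
  exact le_of_mul_le_mul_left h1 hpos

open Classical in
theorem main (hno : ∀ u v w : H, ((u : Fˣ) : F) + ((v : Fˣ) : F) ≠ ((w : Fˣ) : F)) :
    (Fintype.card H : ℝ) ^ 2 ≤
      Real.sqrt (Fintype.card F) * ((Fintype.card F : ℝ) - Fintype.card H) := by
  set ψ := AddChar.FiniteField.primitiveChar_to_Complex F with hψdef
  have hψ : ψ.IsPrimitive := AddChar.FiniteField.primitiveChar_to_Complex_isPrimitive F
  have h3 := triple H hψ hno
  rw [← Finset.add_sum_erase _ _ (Finset.mem_univ (0 : F)), f_zero] at h3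
  have hP := parseval_real H hψ
  rw [← Finset.add_sum_erase _ _ (Finset.mem_univ (0 : F)), f_zero] at hP
  have h4 : ((Fintype.card H : ℂ) * ((Fintype.card H : ℂ) * conj (Fintype.card H : ℂ))) =
      - ∑ t ∈ Finset.univ.erase (0 : F), f H ψ t * (f H ψ t * conj (f H ψ t)) := by
    linear_combination h3
  have h5 := congrArg norm h4
  rw [norm_neg] at h5
  have h6 : ‖∑ t ∈ Finset.univ.erase (0 : F), f H ψ t * (f H ψ t * conj (f H ψ t))‖ ≤
      ∑ t ∈ Finset.univ.erase (0 : F), Real.sqrt (Fintype.card F) * ‖f H ψ t‖ ^ 2 := by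
    refine (norm_sum_le _ _).trans (Finset.sum_le_sum fun t ht => ?_)
    have ht0 : t ≠ 0 := Finset.ne_of_mem_erase ht
    rw [norm_mul, norm_mul, RCLike.norm_conj, ← sq]
    refine mul_le_mul_of_nonneg_right ?_ (by positivity)
    exact Real.le_sqrt_of_sq_le (f_bound H hψ ht0)
  rw [← h5, ← Finset.mul_sum] at h6
  simp only [norm_mul, RCLike.norm_conj, Complex.norm_natCast] at h6 hP
  have h7 : ∑ t ∈ Finset.univ.erase (0 : F), ‖f H ψ t‖ ^ 2 =
      (Fintype.card H : ℝ) * ((Fintype.card F : ℝ) - Fintype.card H) := by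
    linear_combination hP
  rw [h7] at h6
  have hpos : (0 : ℝ) < Fintype.card H := by
    exact_mod_cast Fintype.card_pos
  have h8 : (Fintype.card H : ℝ) * (Fintype.card H : ℝ) ^ 2 ≤ (Fintype.card H : ℝ) *
      (Real.sqrt (Fintype.card F) * ((Fintype.card F : ℝ) - Fintype.card H)) := by
    nlinarith [h6]
  exact le_of_mul_le_mul_left h8 hpos

end

theorem t : ∀ (F : Type) [Field F] [Fintype F] (H : Subgroup Fˣ), 2 ≤ H.index →
    H.index ^ 4 < Fintype.card F → ∃ x ∈ H, ∃ y ∈ H, ∃ z ∈ H, (x : F) + y = z := by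
  classical
  intro F _ _ H hr hq
  by_contra hcon
  push Not at hcon
  have hmain := main H (fun u v w => hcon u u.2 v v.2 w w.2)
  have hcard : H.index * Fintype.card H + 1 = Fintype.card F := by
    have h1 := H.card_mul_index
    rw [Nat.card_eq_fintype_card, Nat.card_eq_fintype_card, Fintype.card_units] at h1
    have h2 : 0 < Fintype.card F := Fintype.card_pos
    rw [mul_comm, h1]
    omega
  set q := Fintype.card F
  set h := Fintype.card H
  set r := H.index
  have hh : 2 ≤ h := by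
    by_contra hlt
    have h1 : h ≤ 1 := by omega
    have h2 : r * h ≤ r * 1 := Nat.mul_le_mul_left r h1
    have h3 : r ^ 4 ≤ r := by omega
    have h4 : r ^ 1 < r ^ 4 := Nat.pow_lt_pow_right (by omega) (by norm_num)
    rw [pow_one] at h4
    omega
  have hs : Real.sqrt q ^ 2 = (q : ℝ) := Real.sq_sqrt (by positivity)
  have hs0 : 0 ≤ Real.sqrt q := Real.sqrt_nonneg _
  have hrs : (r : ℝ) ^ 2 ≤ Real.sqrt q := by
    apply Real.le_sqrt_of_sq_le
    have : ((r : ℝ) ^ 4) < (q : ℝ) := by exact_mod_cast hq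
    nlinarith [this]
  have hqr : (r : ℝ) * h + 1 = q := by exact_mod_cast hcard
  have hhR : (2 : ℝ) ≤ h := by exact_mod_cast hh
  have hrR : (2 : ℝ) ≤ r := by exact_mod_cast hr
  have hqh : (0 : ℝ) ≤ (q : ℝ) - h := by nlinarith
  have e1 : (h : ℝ) ^ 2 * (r : ℝ) ^ 2 ≤ Real.sqrt q * ((q : ℝ) - h) * Real.sqrt q :=
    mul_le_mul hmain hrs (by positivity) (by positivity)
  have e2 : Real.sqrt q * ((q : ℝ) - h) * Real.sqrt q = (q : ℝ) * ((q : ℝ) - h) := by
    calc Real.sqrt q * ((q : ℝ) - h) * Real.sqrt q = Real.sqrt q ^ 2 * ((q : ℝ) - h) := by ring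
      _ = _ := by rw [hs]
  rw [e2] at e1
  have e3 : (h : ℝ) ^ 2 * (r : ℝ) ^ 2 = ((q : ℝ) - 1) ^ 2 := by
    rw [← hqr]; ring
  rw [e3] at e1
  have e4 : (q : ℝ) * h ≤ 2 * q - 1 := by nlinarith [e1]
  have hq0 : (0 : ℝ) ≤ q := by positivity
  nlinarith [mul_le_mul_of_nonneg_left hhR hq0]

theorem stSUM : Pool.Agent.K7.H2.UT.StSUM := t

end Pool.Agent.K7.H30.UTSUM2
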